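import Pool.Agent.Helper2.LD.St2b

/-!
# LD module StrL: strong gadgets and twins
-/

set_option autoImplicit false

namespace Pool.Agent.Helper39.LD

open Pool.Agent.Helper2.LD

section

variable {K W : Type} {k : ℕ} {code : K → Finset ℕ} {H : SimpleGraph W}

private theorem par_ne_l (c : Cl K) (κ : K) : c.par ≠ Cl.l κ := by
  cases c with
  | pl => simp [Cl.par]
  | a1 κ' => simp [Cl.par]
  | a2 κ' => simp [Cl.par]
  | r κ' => simp [Cl.par]
  | l κ' => simp [Cl.par]
  | m κ' i j =>
    simp only [Cl.par]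
    split_ifs <;> simp

private theorem par_eq_r (c : Cl K) (κ : K) (h : c.par = Cl.r κ) : c = Cl.l κ := by
  cases c with
  | pl => simp [Cl.par] at h
  | a1 κ' => simp [Cl.par] at h
  | a2 κ' => simp [Cl.par] at h
  | r κ' => simp [Cl.par] at h
  | l κ' =>
    simp only [Cl.par, Cl.r.injEq] at h
    rw [h]
  | m κ' i j =>
    simp only [Cl.par] at h
    split_ifs at h

/-- A vertex of sort `l` has one neighbour. -/
private theorem nb_l (hL : LocAx k code H) (κ : K) (z y : W) (hz : Is k code H (Cl.l κ) z)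
    (hzy : H.Adj z y) : ∀ x, H.Adj z x ↔ x = y := by
  have key : ∀ x, H.Adj z x → Is k code H (Cl.r κ) x := by
    intro x hx
    obtain ⟨c, hc, hcx⟩ := hL.ex x
    rcases hL.nb z x (Cl.l κ) c trivial hc hx hz hcx with h | h | h
    · exact absurd h.1 (by simp)
    · have h2 : c = Cl.r κ := h.2
      rwa [h2] at hcx
    · exact absurd h.2.symm (par_ne_l c κ)
  obtain ⟨u, hu, huu⟩ := hL.up z (Cl.l κ) trivial hz (by simp)
  intro x
  constructor
  · intro hx
    rw [huu x ⟨hx, key x hx⟩, huu y ⟨hzy, key y hzy⟩]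
  · rintro rfl
    exact hzy

/-- The neighbours of a vertex of sort `r`. -/
private theorem nb_r (hL : LocAx k code H) (κ : K) (y x u : W) (hy : Is k code H (Cl.r κ) y)
    (hyx : H.Adj y x) (hx : Is k code H (Cl.a2 κ) x) (hyu : H.Adj y u) (hux : u ≠ x) :
    Is k code H (Cl.l κ) u := by
  obtain ⟨c, hc, hcu⟩ := hL.ex u
  rcases hL.nb y u (Cl.r κ) c trivial hc hyu hy hcu with h | h | h
  · exact absurd h.1 (by simp)
  · exfalso
    have h2 : c = Cl.a2 κ := h.2
    rw [h2] at hcu
    obtain ⟨t, ht, htt⟩ := hL.up y (Cl.r κ) trivial hy (by simp)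
    exact hux ((htt u ⟨hyu, hcu⟩).trans (htt x ⟨hyx, hx⟩).symm)
  · rw [par_eq_r c κ h.2.symm] at hcu
    exact hcu

end

theorem pStrL : StStrL := by
  intro K W k hk code H hL v κ hv
  classical
  constructor
  · rintro ⟨w, x, y, hvw, hw, hwx, hx, hxy, hy, s, hs, hsy⟩
    have h1 : MM k + 1 ≤ (s.erase x).card := by
      have := Finset.pred_card_le_card_erase (s := s) (a := x)
      omega
    obtain ⟨t, hts, htc⟩ := Finset.exists_subset_card_eq h1
    have hl : ∀ u ∈ t, Is k code H (Cl.l κ) u ∧ H.Adj u y := by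
      intro u hu
      have hu1 := hts hu
      have h2 := hsy u (Finset.mem_of_mem_erase hu1)
      exact ⟨nb_r hL κ y x u hy hxy.symm hx h2 (Finset.ne_of_mem_erase hu1), h2.symm⟩
    obtain ⟨z, hz⟩ : t.Nonempty := by
      rw [← Finset.card_pos, htc]
      omega
    refine ⟨z, y, x, w, (hl z hz).1, (hl z hz).2, hy, hxy.symm, hx, hwx.symm, hw, hvw.symm,
      t.erase z, ?_, Finset.notMem_erase z t, ?_⟩
    · rw [Finset.card_erase_of_mem hz, htc]
      omega
    · intro u hu x'
      have h3 := hl u (Finset.mem_of_mem_erase hu)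
      rw [nb_l hL κ z y (hl z hz).1 (hl z hz).2 x', nb_l hL κ u y h3.1 h3.2 x']
  · rintro ⟨z, y, x, w, hz, hzy, hy, hyx, hx, hxw, hw, hwv, s, hs, hzs, hsz⟩
    refine ⟨w, x, y, hwv.symm, hw, hxw.symm, hx, hyx.symm, hy, insert x (insert z s), ?_, ?_⟩
    · have h1 : x ≠ z := by
        rintro rfl
        have := hL.un x (Cl.a2 κ) (Cl.l κ) trivial trivial hx hz
        simp at this
      have h2 : x ∉ s := by
        intro h
        have h3 := (hsz x h w).2 hxw
        have h4 := (nb_l hL κ z y hz hzy w).1 h3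
        rw [h4] at hw
        have := hL.un y (Cl.a1 κ) (Cl.r κ) trivial trivial hw hy
        simp at this
      rw [Finset.card_insert_of_notMem, Finset.card_insert_of_notMem hzs, hs]
      rw [Finset.mem_insert]
      push Not
      exact ⟨h1, h2⟩
    · intro u hu
      rw [Finset.mem_insert, Finset.mem_insert] at hu
      rcases hu with rfl | rfl | hu
      · exact hyx
      · exact hzy.symm
      · exact ((hsz u hu y).1 hzy).symm

end Pool.Agent.Helper39.LD
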